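import Mathlib
import Pool.Agent.Y669.SR.Red
import Pool.Agent.Y669.SR.Three
import Pool.Agent.Y669.SR.Two

/-!
# SR-RATIONALIZABILITY is NP-complete, already for three pairwise disjoint perfect matchings

All the definitions of the statement are in `Pool.Agent.Y669.SR.Defs`:

* `Inst n`: an instance of the stable roommates problem with the agents `0, ..., n - 1`;
  `prefers a b c`: the agent `a` strictly prefers `b` to `c` (a strict linear order of all the other
  agents for every `a`);
* `IsMatching n M`: the list of pairs `M` is a matching; `Joined M a b`: `{a, b}` is one of its pairs;
  `Inst.Stable I M`: there is no blocking pair;
* `Rationalizable`: the decision problem; the input is the number of the agents in unary and a list of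
  lists of pairs; it is a yes-instance if all the lists are matchings and some instance `I` has all of
  them as stable matchings;
* `Perfect n M`: every agent is matched; `ThreePerfect`: the input consists of three pairwise disjoint
  perfect matchings; `Rationalizable3`: the restriction of the decision problem to these inputs.

`InNPP` and `NPHardP` (from `Pool.Agent.NPC.Defs`) are membership in NP and NP-hardness under
polynomial-time many-one reductions of the language of the codes of the yes-instances, with Mathlib's
`Turing.TM2ComputableInPolyTime` as polynomial time.

Idea of the proof. Three disjoint perfect matchings are the colour classes of a 3-edge-coloured cubic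
graph. They are rationalizable if and only if every bichromatic cycle can be 2-coloured alternatingly
such that at no vertex the three cycles through it give the three bits a cyclic order of the colours.
A triangle forces its three bits to be equal (copying), and a gadget with 14 vertices expresses that
three bits are not all equal.
-/

set_option autoImplicit false

namespace Pool.Agent.Results.MP_3056b9_lc.ThreeMatchingsNPComplete

open Pool.Agent.NPC Pool.Agent.Y669.SR

/-- SR-RATIONALIZABILITY is NP-complete; it remains NP-complete if the input consists of three
pairwise disjoint perfect matchings; two perfect matchings are always rationalizable. -/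
theorem result : (InNPP Rationalizable ∧ NPHardP Rationalizable) ∧
    (InNPP Rationalizable3 ∧ NPHardP Rationalizable3) ∧
    ∀ (n : ℕ) (M M' : List (ℕ × ℕ)), IsMatching n M → Perfect n M → IsMatching n M' →
      Perfect n M' → Rationalizable (List.replicate n (), [M, M']) :=
  ⟨⟨inNPP_rationalizable, hardI_rationalizable.toNPHardP⟩,
    ⟨inNPP_rationalizable3, hardI_rationalizable3.toNPHardP⟩,
    fun n M M' h1 h2 h3 h4 => two_perfect n M M' h1 h2 h3 h4⟩

end Pool.Agent.Results.MP_3056b9_lc.ThreeMatchingsNPComplete
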